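import Pool.Agent.H90.NumIdxTwo

namespace Pool.Agent.Results.MP_d0ed5b_an.BelowKappa

open Pool.Agent.H90.NumIdx MeasureTheory
open scoped ENNReal

/-- Real or complex scalars, `p = 4`: if `μ` has two different points of mass one (for example the
counting measure on a set with at least two points), then `n₁(L_4(μ)) < κ_4`. -/
theorem result (𝕜 : Type) [RCLike 𝕜] (Ω : Type) [MeasurableSpace Ω] (μ : Measure Ω)
    [Fact (1 ≤ (4 : ℝ≥0∞))] (a b : Ω) (hab : a ≠ b) (hma : MeasurableSet {a})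
    (hmb : MeasurableSet {b}) (ha : μ {a} = 1) (hb : μ {b} = 1) :
    rankOneIndex 𝕜 (Lp 𝕜 4 μ) < kappa 4 :=
  Two.rankOne_lt 𝕜 hab hma hmb ha hb

end Pool.Agent.Results.MP_d0ed5b_an.BelowKappa
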